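import Pool.Agent.SKQ.Kit

/-!
# SMO: smooth cut-offs of `log |z|` and `z / |z|^n`
-/

set_option autoImplicit false

namespace Pool.Agent.SKQ.H86

open Metric Set Filter Topology MeasureTheory
open scoped ENNReal
open Helper22QC
open Pool.Agent.SKQ

variable {n : ℕ}

theorem th_contDiff (μ : ℝ) : ContDiff ℝ (⊤ : ℕ∞) (th μ : E n → ℝ) := by
  unfold th
  refine Real.smoothTransition.contDiff.comp ?_
  exact ((contDiff_const.mul (contDiff_norm_sq ℝ)).div_const _).sub contDiff_const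

theorem th_one {μ : ℝ} (hμ : 0 < μ) {z : E n} (hz : μ ≤ ‖z‖) : th μ z = 1 := by
  unfold th
  apply Real.smoothTransition.one_of_one_le
  have h1 : μ ^ 2 ≤ ‖z‖ ^ 2 := pow_le_pow_left₀ hμ.le hz 2
  have h2 : (0 : ℝ) < μ ^ 2 := by positivity
  have h3 : 2 ≤ 2 * ‖z‖ ^ 2 / μ ^ 2 := by
    rw [le_div_iff₀ h2]
    linarith
  linarith

theorem th_zero {μ : ℝ} (hμ : 0 < μ) {z : E n} (hz : ‖z‖ ≤ μ / 2) : th μ z = 0 := by
  unfold th
  apply Real.smoothTransition.zero_of_nonpos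
  have h1 : ‖z‖ ^ 2 ≤ (μ / 2) ^ 2 := pow_le_pow_left₀ (norm_nonneg _) hz 2
  have h2 : (0 : ℝ) < μ ^ 2 := by positivity
  have h3 : 2 * ‖z‖ ^ 2 / μ ^ 2 ≤ 1 := by
    rw [div_le_one h2]
    nlinarith
  linarith

theorem th_deriv {μ : ℝ} (hμ : 0 < μ) {z : E n} (hz : μ ≤ ‖z‖) :
    HasFDerivAt (th μ : E n → ℝ) (0 : E n →L[ℝ] ℝ) z := by
  have hc : ContDiff ℝ (⊤ : ℕ∞) (th μ : E n → ℝ) := th_contDiff μ
  have hd : DifferentiableAt ℝ (th μ : E n → ℝ) z := hc.contDiffAt.differentiableAt (by simp)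
  have hm : IsLocalMax (th μ : E n → ℝ) z := by
    have h0 : ∀ᶠ y in 𝓝 z, (th μ : E n → ℝ) y ≤ th μ z := by
      filter_upwards with y
      rw [th_one hμ hz]
      exact Real.smoothTransition.le_one _
    exact h0
  have h : HasFDerivAt (th μ : E n → ℝ) (fderiv ℝ (th μ : E n → ℝ) z) z := hd.hasFDerivAt
  have h2 : fderiv ℝ (th μ : E n → ℝ) z = 0 := hm.fderiv_eq_zero
  rwa [h2] at h

theorem ev_zero {μ : ℝ} (hμ : 0 < μ) : ∀ᶠ z in 𝓝 (0 : E n), th μ z = 0 := by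
  filter_upwards [closedBall_mem_nhds (0 : E n) (half_pos hμ)] with z hz
  exact th_zero hμ (by rwa [mem_closedBall, dist_zero_right] at hz)

theorem lg_contDiff {μ : ℝ} (hμ : 0 < μ) : ContDiff ℝ (⊤ : ℕ∞) (lg μ : E n → ℝ) := by
  rw [contDiff_iff_contDiffAt]
  intro z
  rcases eq_or_ne z 0 with rfl | hz
  · have h : (lg μ : E n → ℝ) =ᶠ[𝓝 0] fun _ => 0 := by
      filter_upwards [ev_zero hμ] with y hy
      unfold lg
      rw [hy, zero_mul]
    exact contDiffAt_const.congr_of_eventuallyEq h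
  · unfold lg
    exact (th_contDiff μ).contDiffAt.mul
      ((contDiffAt_norm ℝ hz).log (norm_ne_zero_iff.2 hz))

theorem gs_contDiff {μ : ℝ} (hμ : 0 < μ) : ContDiff ℝ (⊤ : ℕ∞) (gs μ : E n → E n) := by
  rw [contDiff_iff_contDiffAt]
  intro z
  rcases eq_or_ne z 0 with rfl | hz
  · have h : (gs μ : E n → E n) =ᶠ[𝓝 0] fun _ => 0 := by
      filter_upwards [ev_zero hμ] with y hy
      unfold gs
      rw [hy, zero_mul, zero_smul]
    exact contDiffAt_const.congr_of_eventuallyEq h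
  · unfold gs
    exact ((th_contDiff μ).contDiffAt.mul
      (((contDiffAt_norm ℝ hz).pow n).inv (pow_ne_zero _ (norm_ne_zero_iff.2 hz)))).smul
        contDiffAt_id

theorem norm_deriv {z : E n} (hz : z ≠ 0) :
    HasFDerivAt (fun y : E n => ‖y‖) (‖z‖⁻¹ • innerSL ℝ z) z := by
  have h1 : HasFDerivAt (fun y : E n => ‖y‖ ^ 2) (2 • innerSL ℝ z) z :=
    (hasStrictFDerivAt_norm_sq z).hasFDerivAt
  have h0 : ‖z‖ ≠ 0 := norm_ne_zero_iff.2 hz
  have h2 := h1.sqrt (pow_ne_zero 2 h0)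
  have h3 : (fun y : E n => √(‖y‖ ^ 2)) = fun y => ‖y‖ := by
    funext y
    exact Real.sqrt_sq (norm_nonneg _)
  rw [h3, Real.sqrt_sq (norm_nonneg _)] at h2
  have h4 : (1 / (2 * ‖z‖)) • (2 • innerSL ℝ z) = ‖z‖⁻¹ • innerSL ℝ z := by
    ext y
    simp only [smul_apply, innerSL_apply_apply, smul_eq_mul, nsmul_eq_mul]
    field_simp
    ring
  rwa [h4] at h2

theorem smo : SMOStmt := by
  intro n μ hn hμ
  refine ⟨lg_contDiff hμ, gs_contDiff hμ, fun z hz => ?_⟩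
  have hz0 : 0 < ‖z‖ := hμ.trans_le hz
  have hzn : z ≠ 0 := norm_pos_iff.1 hz0
  have h1 := th_one hμ hz
  have hth := th_deriv hμ hz
  have hN := norm_deriv hzn
  refine ⟨?_, ?_, ?_, ?_⟩
  · unfold lg
    rw [h1, one_mul]
  · unfold gs
    rw [h1, one_mul]
  · have hL : HasFDerivAt (fun y : E n => Real.log ‖y‖) (‖z‖⁻¹ • (‖z‖⁻¹ • innerSL ℝ z)) z :=
      hN.log hz0.ne'
    have hM : HasFDerivAt (lg μ : E n → ℝ) (‖z‖⁻¹ • (‖z‖⁻¹ • innerSL ℝ z)) z := by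
      have := hth.mul hL
      rw [h1, one_smul, smul_zero, add_zero] at this
      exact this
    rw [hM.fderiv]
    unfold gr
    rw [LinearIsometryEquiv.symm_apply_eq]
    ext y
    rw [InnerProductSpace.toDual_apply_apply, real_inner_smul_left]
    simp only [ContinuousLinearMap.smul_apply, innerSL_apply_apply, smul_eq_mul]
    rw [← mul_assoc, sq, mul_inv]
  · have hP : HasFDerivAt (fun y : E n => (‖y‖ ^ n)⁻¹)
        ((-(n * ‖z‖ ^ (n - 1)) / (‖z‖ ^ n) ^ 2) • (‖z‖⁻¹ • innerSL ℝ z)) z := by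
      have hd : HasDerivAt (fun r : ℝ => (r ^ n)⁻¹)
          (-(n * ‖z‖ ^ (n - 1)) / (‖z‖ ^ n) ^ 2) ‖z‖ :=
        (hasDerivAt_pow n ‖z‖).inv (pow_ne_zero _ hz0.ne')
      exact hd.comp_hasFDerivAt z hN
    have hQ := hth.mul hP
    rw [h1, one_smul, smul_zero, add_zero] at hQ
    have hR := hQ.smul (hasFDerivAt_id z)
    have hS : HasFDerivAt (gs μ : E n → E n) _ z := hR
    unfold dv
    rw [hS.fderiv]
    have hi : ∀ i : Fin n,
        ((((th μ : E n → ℝ) * fun y : E n => (‖y‖ ^ n)⁻¹) z • ContinuousLinearMap.id ℝ (E n) +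
          ((-(n * ‖z‖ ^ (n - 1)) / (‖z‖ ^ n) ^ 2) • (‖z‖⁻¹ • innerSL ℝ z)).smulRight (id z))
            (EuclideanSpace.single i 1)) i =
        (‖z‖ ^ n)⁻¹ + (-(n * ‖z‖ ^ (n - 1)) / (‖z‖ ^ n) ^ 2) * ‖z‖⁻¹ * z i ^ 2 := by
      intro i
      simp only [Pi.mul_apply, ContinuousLinearMap.add_apply, ContinuousLinearMap.smul_apply,
        ContinuousLinearMap.smulRight_apply, ContinuousLinearMap.id_apply, innerSL_apply_apply,
        PiLp.add_apply, PiLp.smul_apply, smul_eq_mul, h1, id]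
      rw [EuclideanSpace.inner_single_right]
      simp
      ring
    rw [Finset.sum_congr rfl fun i _ => hi i, Finset.sum_add_distrib, ← Finset.mul_sum]
    have hs : ∑ i, z i ^ 2 = ‖z‖ ^ 2 := by
      rw [EuclideanSpace.real_norm_sq_eq]
    rw [hs, Finset.sum_const, Finset.card_univ, Fintype.card_fin, nsmul_eq_mul]
    obtain ⟨m, rfl⟩ : ∃ m, n = m + 1 := ⟨n - 1, by omega⟩
    have h0 : ‖z‖ ≠ 0 := hz0.ne'
    rw [Nat.add_sub_cancel]
    field_simp
    ring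

end Pool.Agent.SKQ.H86
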